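import Pool.Agent.H82.NET.Stmts

set_option autoImplicit false

namespace Pool.NET

private theorem pin_up {N : Set Nd} {u : Nd → Prop} (hU : UN N u) {x y : ℤ} (h1 : u (x, y))
    (h2 : (x, y) ∈ N) : (x, y + 1) ∈ N := (hU (x, y) h1).1 h2

private theorem pin_dn {N : Set Nd} {u : Nd → Prop} (hU : UN N u) {x y : ℤ} (h1 : u (x, y - 1))
    (h2 : (x, y) ∈ N) : (x, y - 1) ∈ N := by
  have := (hU (x, y - 1) h1).2
  simp only [sub_add_cancel] at this
  exact this h2

private theorem pin_l {N : Set Nd} {h : Nd → Prop} (hH : HN N h) {x y : ℤ} (h1 : h (x, y)) :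
    (x, y) ∈ N := (hH (x, y) h1).1

private theorem pin_r {N : Set Nd} {h : Nd → Prop} (hH : HN N h) {x y : ℤ} (h1 : h (x, y)) :
    (x + 1, y) ∈ N := (hH (x, y) h1).2

theorem pin_thm : PIN_S := by
  intro N h u hH hU
  refine ⟨?_, ?_, ?_, ?_⟩
  · rintro ⟨⟨x, y⟩, k⟩ hok
    cases k <;> simp only [nx, upV, dnV] <;> simp only [OK] at hok
    · split_ifs with a1 a2
      · exact pin_up hU a2 (pin_l hH a1)
      · exact ⟨pin_l hH a1, a2⟩
      · exact ⟨hok, a1⟩
    · split_ifs with a1 a2
      · exact pin_dn hU a2 (pin_r hH a1)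
      · exact ⟨pin_r hH a1, a2⟩
      · exact ⟨hok, a1⟩
    · split_ifs with a1
      · exact pin_up hU a1 hok.1
      · exact ⟨hok.1, a1⟩
    · exact hok.1
    · split_ifs with a1
      · exact pin_dn hU a1 hok.1
      · exact ⟨hok.1, a1⟩
    · exact hok.1
  · rintro ⟨⟨x, y⟩, k⟩ hok
    cases k <;> simp only [pv, rNE, rSW] <;> simp only [OK] at hok
    · split_ifs with a1 a2
      · exact pin_l hH a2
      · exact ⟨pin_up hU a1 hok, a2⟩
      · exact ⟨hok, a1⟩
    · split_ifs with a1 a2
      · exact pin_r hH a2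
      · exact ⟨pin_dn hU a1 hok, a2⟩
      · exact ⟨hok, a1⟩
    · exact hok.1
    · split_ifs with a1
      · exact pin_r hH a1
      · exact ⟨hok.1, a1⟩
    · exact hok.1
    · split_ifs with a1
      · exact pin_l hH a1
      · exact ⟨hok.1, a1⟩
  · rintro ⟨⟨x, y⟩, k⟩ hok
    cases k <;> simp only [nx, upV, dnV] <;> simp only [OK] at hok
    · split_ifs with a1 a2
      · simp [pv, rNE, a1, a2]
      · simp [pv, rNE, a1]
      · simp [pv]
    · split_ifs with a1 a2
      · simp [pv, rSW, a1, a2]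
      · simp [pv, rSW, a1]
      · simp [pv]
    · split_ifs with a1
      · simp [pv, rNE, a1, hok.2]
      · simp [pv, rNE, hok.2]
    · simp [pv, hok.2]
    · split_ifs with a1
      · simp [pv, rSW, a1, hok.2]
      · simp [pv, rSW, hok.2]
    · simp [pv, hok.2]
  · rintro ⟨⟨x, y⟩, k⟩ hok
    cases k <;> simp only [pv, rNE, rSW] <;> simp only [OK] at hok
    · split_ifs with a1 a2
      · simp [nx, dnV, a1, a2]
      · simp [nx, dnV, a1]
      · simp [nx]
    · split_ifs with a1 a2
      · simp [nx, upV, a1, a2]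
      · simp [nx, upV, a1]
      · simp [nx]
    · simp [nx, hok.2]
    · split_ifs with a1
      · simp [nx, upV, a1, hok.2]
      · simp [nx, upV, hok.2]
    · simp [nx, hok.2]
    · split_ifs with a1
      · simp [nx, dnV, a1, hok.2]
      · simp [nx, dnV, hok.2]

end Pool.NET
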